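import Mathlib
import Pool.Agent.Helper57.TOP.Final
import Pool.Agent.Helper97.SO.Main

set_option autoImplicit false

/-!
# Totally odd subdivisions of `K_4` in 4-connected graphs (MP_3f61ad_co), full answer

A finite 4-connected graph contains a totally odd subdivision of `K_4` if and only if its
bipartite index is at least two.
-/

namespace Pool.Agent.Results.MP_3f61ad_co.Full

open SimpleGraph

universe u

/-- `G` is 4-connected: it has at least 5 vertices and removing any set of at most 3 vertices
leaves it connected. -/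
def FourConnected {V : Type u} [Fintype V] (G : SimpleGraph V) : Prop :=
  5 ≤ Fintype.card V ∧ ∀ S : Finset V, S.card ≤ 3 → (G.induce {v | v ∉ S}).Connected

/-- The bipartite index: the least number of vertices whose removal leaves a bipartite graph. -/
noncomputable def bipartiteIndex {V : Type u} (G : SimpleGraph V) : ℕ :=
  sInf {n | ∃ S : Finset V, S.card = n ∧ (G.induce {v | v ∉ S}).Colorable 2}

/-- `G` contains a totally odd subdivision of `K_4`: four distinct branch vertices
`v 0, ..., v 3`, six paths `P i j` (`i < j`) of odd length from `v i` to `v j`, and distinct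
paths share no vertices other than common endpoints. -/
def HasTotallyOddK4 {V : Type u} (G : SimpleGraph V) : Prop :=
  ∃ v : Fin 4 → V, Function.Injective v ∧
    ∃ P : ∀ i j : Fin 4, G.Walk (v i) (v j),
      (∀ i j : Fin 4, i < j → (P i j).IsPath ∧ Odd (P i j).length) ∧
      ∀ i j k l : Fin 4, i < j → k < l → (i, j) ≠ (k, l) →
        ∀ x : V, x ∈ (P i j).support → x ∈ (P k l).support →
          (x = v i ∨ x = v j) ∧ (x = v k ∨ x = v l)

section Easy

variable {V : Type u} {G : SimpleGraph V}

lemma index_mem [Finite V] (G : SimpleGraph V) :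
    ∃ S : Finset V, S.card = bipartiteIndex G ∧ (G.induce {v | v ∉ S}).Colorable 2 := by
  classical
  have := Fintype.ofFinite V
  have hne : {n | ∃ S : Finset V, S.card = n ∧ (G.induce {v | v ∉ S}).Colorable 2}.Nonempty := by
    refine ⟨_, Finset.univ, rfl, ?_⟩
    have : IsEmpty {v : V | v ∉ (Finset.univ : Finset V)} := ⟨fun x => x.2 (Finset.mem_univ _)⟩
    exact ⟨Coloring.mk (fun x => (isEmptyElim x : Fin 2)) (fun {x} => isEmptyElim x)⟩
  exact Nat.sInf_mem hne

lemma two_le_index_iff [Finite V] (G : SimpleGraph V) :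
    2 ≤ bipartiteIndex G ↔ ∀ S : Finset V, S.card ≤ 1 → ¬ (G.induce {v | v ∉ S}).Colorable 2 := by
  constructor
  · intro h S hS hc
    have : bipartiteIndex G ≤ S.card := Nat.sInf_le ⟨S, rfl, hc⟩
    omega
  · intro h
    by_contra hlt
    obtain ⟨S, hS, hc⟩ := index_mem G
    exact h S (by omega) hc

/-- Parity of a walk in terms of a two-colouring of the vertices outside `S`. -/
lemma parity {S : Set V} (κ : V → Bool) (hκ : ∀ a b, a ∉ S → b ∉ S → G.Adj a b → κ a ≠ κ b)
    {a b : V} (p : G.Walk a b) (hp : ∀ x ∈ p.support, x ∉ S) : Odd p.length ↔ κ a ≠ κ b := by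
  induction p with
  | nil => simp
  | @cons a c b h p ih =>
    have h1 : a ∉ S := hp a (by simp)
    have h2 : c ∉ S := hp c (by simp)
    have ih' := ih (fun x hx => hp x (by simp [hx]))
    have h3 := hκ a c h1 h2 h
    rw [Walk.length_cons, Nat.odd_add_one, ih']
    cases ha : κ a <;> cases hb : κ b <;> cases hc : κ c <;> simp_all

lemma index_of_subdivision [Finite V] (h : HasTotallyOddK4 G) : 2 ≤ bipartiteIndex G := by
  classical
  rw [two_le_index_iff]
  intro S hS hc
  obtain ⟨v, hv, P, hP, hD⟩ := h
  obtain ⟨C⟩ := hc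
  -- the two-colouring
  set κ : V → Bool := fun a => if ha : a ∉ S then decide (C ⟨a, ha⟩ = 0) else true with hκdef
  have hκ : ∀ a b, a ∉ (S : Set V) → b ∉ (S : Set V) → G.Adj a b → κ a ≠ κ b := by
    intro a b ha hb hab
    have ha' : a ∉ S := ha
    have hb' : b ∉ S := hb
    have hCab : C ⟨a, ha'⟩ ≠ C ⟨b, hb'⟩ := C.valid (by simpa using hab)
    have e1 : κ a = decide (C ⟨a, ha'⟩ = 0) := by simp [hκdef, ha']
    have e2 : κ b = decide (C ⟨b, hb'⟩ = 0) := by simp [hκdef, hb']
    rw [e1, e2]
    intro he
    apply hCab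
    have hd : (C ⟨a, ha'⟩ = 0) ↔ (C ⟨b, hb'⟩ = 0) := by simpa using he
    have key : ∀ x y : Fin 2, ((x = 0) ↔ (y = 0)) → x = y := by decide
    exact key _ _ hd
  -- a branch vertex to omit
  have key : ∃ l : Fin 4, ∀ i j : Fin 4, i < j → i ≠ l → j ≠ l →
      ∀ x ∈ (P i j).support, x ∉ (S : Set V) := by
    by_contra hcon
    push Not at hcon
    choose I J hIJ hI hJ X hX hXS using hcon
    have hS1 : ∀ x ∈ S, ∀ y ∈ S, x = y := by
      intro x hx y hy
      exact Finset.card_le_one.mp hS x hx y hy
    have hw : ∀ l m, X l = X m := fun l m => hS1 _ (by simpa using hXS l) _ (by simpa using hXS m)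
    -- the common vertex
    set w := X 0 with hwdef
    have hwX : ∀ l, w ∈ (P (I l) (J l)).support := fun l => by
      have := hX l
      rwa [← hw 0 l] at this
    by_cases hb : ∃ l, w = v l
    · obtain ⟨l, hl⟩ := hb
      have hmem := hwX l
      -- compare with a path ending at `v l`
      rcases lt_or_gt_of_ne (hI l) with hlt | hlt
      · have h2 := hD (I l) (J l) (I l) l (hIJ l) hlt (by
          intro he; exact hJ l (by simpa using congrArg Prod.snd he)) w hmem (by
          rw [hl]; exact Walk.end_mem_support _)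
        rcases h2.1 with h3 | h3
        · exact hI l (hv (h3.symm.trans hl))
        · exact hJ l (hv (h3.symm.trans hl))
      · have h2 := hD (I l) (J l) l (I l) (hIJ l) hlt (by
          intro he; exact hI l (by simpa using congrArg Prod.fst he)) w hmem (by
          rw [hl]; exact Walk.start_mem_support _)
        rcases h2.1 with h3 | h3
        · exact hI l (hv (h3.symm.trans hl))
        · exact hJ l (hv (h3.symm.trans hl))
    · push Not at hb
      -- the path of index `l` omits `l`; take `l = I 0`
      have hne : (I 0, J 0) ≠ (I (I 0), J (I 0)) := by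
        intro he
        exact hI (I 0) (by simpa using (congrArg Prod.fst he).symm)
      have h2 := hD _ _ _ _ (hIJ 0) (hIJ (I 0)) hne w (hwX 0) (hwX (I 0))
      rcases h2.1 with h3 | h3
      · exact hb _ h3
      · exact hb _ h3
  obtain ⟨l, hl⟩ := key
  have htri : ∀ l : Fin 4, ∃ a b c : Fin 4, a < b ∧ b < c ∧ a ≠ l ∧ b ≠ l ∧ c ≠ l := by decide
  have hne : ∀ i j : Fin 4, i < j → i ≠ l → j ≠ l → κ (v i) ≠ κ (v j) := by
    intro i j hij hil hjl
    exact (parity κ hκ (P i j) (hl i j hij hil hjl)).mp (hP i j hij).2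
  obtain ⟨a, b, c, hab, hbc, ha, hb, hc'⟩ := htri l
  have h1 := hne a b hab ha hb
  have h2 := hne b c hbc hb hc'
  have h3 := hne a c (hab.trans hbc) ha hc'
  revert h1 h2 h3
  cases κ (v a) <;> cases κ (v b) <;> cases κ (v c) <;> simp

end Easy

section Transfer

variable {V : Type u} {W : Type}

/-- The subdivision is carried along an isomorphism. -/
lemma subdivision_of_iso {G : SimpleGraph V} {H : SimpleGraph W} (e : H ≃g G)
    (h : ∃ v : Fin 4 → W, Function.Injective v ∧
      ∃ P : ∀ i j : Fin 4, H.Walk (v i) (v j),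
        (∀ i j : Fin 4, i < j → (P i j).IsPath ∧ Odd (P i j).length) ∧
        (∀ i j k l : Fin 4, i < j → k < l → (i, j) ≠ (k, l) →
          ∀ x : W, x ∈ (P i j).support → x ∈ (P k l).support →
            ((x = v i ∨ x = v j) ∧ (x = v k ∨ x = v l)))) : HasTotallyOddK4 G := by
  obtain ⟨v, hv, P, hP, hD⟩ := h
  refine ⟨fun i => e (v i), fun i j hij => hv (e.injective hij),
    fun i j => (P i j).map e.toHom, ?_, ?_⟩
  · intro i j hij
    refine ⟨?_, ?_⟩
    · exact (hP i j hij).1.map e.injective
    · simpa using (hP i j hij).2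
  · intro i j k l hij hkl hne x hx hx'
    rw [Walk.support_map, List.mem_map] at hx hx'
    obtain ⟨y, hy, rfl⟩ := hx
    obtain ⟨z, hz, hzy⟩ := hx'
    have hzy' : z = y := e.injective hzy
    subst hzy'
    obtain ⟨h1, h2⟩ := hD i j k l hij hkl hne z hy hz
    exact ⟨h1.imp (fun h => congrArg e h) (fun h => congrArg e h),
      h2.imp (fun h => congrArg e h) (fun h => congrArg e h)⟩

end Transfer

/-- **MP_3f61ad_co, full answer.** A finite 4-connected graph contains a totally odd subdivision
of `K_4` if and only if its bipartite index is at least two. -/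
theorem result : ∀ (V : Type u) [Fintype V] (G : SimpleGraph V), FourConnected G →
    (2 ≤ bipartiteIndex G ↔ HasTotallyOddK4 G) := by
  classical
  intro V _ G hG
  refine ⟨fun hidx => ?_, index_of_subdivision⟩
  rw [two_le_index_iff] at hidx
  obtain ⟨hcard, hconn⟩ := hG
  let n := Fintype.card V
  let e : Fin n ≃ V := (Fintype.equivFin V).symm
  let H : SimpleGraph (Fin n) := G.comap e
  let E : H ≃g G := ⟨e, by intro a b; exact Iff.rfl⟩
  have hind : ∀ S : Finset (Fin n), Nonempty ((H.induce ((↑S : Set (Fin n))ᶜ)) ≃g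
      (G.induce {v | v ∉ S.map e.toEmbedding})) := by
    intro S
    have key : ∀ x : Fin n, e x ∈ S.map e.toEmbedding ↔ x ∈ S := by
      intro x
      rw [Finset.mem_map_equiv, Equiv.symm_apply_apply]
    refine ⟨⟨⟨fun x => ⟨e x.1, fun h => x.2 ((key x.1).mp h)⟩, fun y => ⟨e.symm y.1, fun h => y.2 ?_⟩,
      ?_, ?_⟩, ?_⟩⟩
    · exact Finset.mem_map_equiv.mpr h
    · intro x; simp
    · intro y; simp
    · intro a b; exact Iff.rfl
  refine subdivision_of_iso E (Pool.Agent.Helper57.TOP.main_of_deg3
    (fun _ _ _ _ hM => Pool.Agent.Helper97.SO.gmin_deg3 hM) (Fin n) H ⟨?_, ?_⟩ ?_)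
  · simp only [Fintype.card_fin]; show 4 < Fintype.card V; omega
  · intro S hS
    obtain ⟨f⟩ := hind S
    rw [f.connected_iff]
    exact hconn _ (by rw [Finset.card_map]; omega)
  · intro S hS hc
    obtain ⟨f⟩ := hind S
    refine hidx (S.map e.toEmbedding) (by rw [Finset.card_map]; exact hS) ?_
    exact hc.of_hom f.symm.toHom

end Pool.Agent.Results.MP_3f61ad_co.Full
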